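import Mathlib

set_option autoImplicit false
set_option linter.unusedSectionVars false

/-!
Piecewise affine order automorphisms of an ordered field whose break points are either points or
cuts at the ends of the balls `a + w O`, where `O` ranges over a chain of convex subrings.
-/

namespace Pool.Agent.U388.LP

variable {K : Type*} [Field K] [LinearOrder K] [IsStrictOrderedRing K]

/-- A family `X` of convex subrings of `K`, all proper, which exhausts `K` and in which every
member is exhausted by the strictly smaller members. -/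
structure Scales (X : Set (Set K)) : Prop where
  one : ∀ O ∈ X, (1 : K) ∈ O
  add : ∀ O ∈ X, ∀ a ∈ O, ∀ b ∈ O, a + b ∈ O
  mul : ∀ O ∈ X, ∀ a ∈ O, ∀ b ∈ O, a * b ∈ O
  conv : ∀ O ∈ X, ∀ a ∈ O, ∀ b, |b| ≤ |a| → b ∈ O
  proper : ∀ O ∈ X, ∃ a, a ∉ O
  exh : ∀ a, ∃ O ∈ X, a ∈ O
  sub : ∀ O ∈ X, ∀ a ∈ O, ∃ O' ∈ X, O' ⊆ O ∧ a ∈ O' ∧ ∃ s, s ∈ O ∧ s ∉ O'

/-- the ball `w O` around zero -/
def sc (w : K) (O : Set K) : Set K := {x | x / w ∈ O}

/-- balls around zero: `{0}` and the sets `w O` with `w > 0`, `O ∈ X` -/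
def IsBall (X : Set (Set K)) (B : Set K) : Prop :=
  B = {0} ∨ ∃ O ∈ X, ∃ w : K, 0 < w ∧ B = sc w O

/-- everything up to the upper end of the ball `a + B` -/
def Up (a : K) (B : Set K) : Set K := {y | y < a ∨ y - a ∈ B}

/-- everything below the ball `a + B` -/
def Lo (a : K) (B : Set K) : Set K := {y | y < a ∧ y - a ∉ B}

/-- the lower sets that may be used for cutting -/
def Allowed (X : Set (Set K)) (D : Set K) : Prop :=
  ∃ a B, IsBall X B ∧ (D = Up a B ∨ D = Lo a B)

theorem isBall_zero (X : Set (Set K)) : IsBall X ({0} : Set K) := Or.inl rfl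

theorem isBall_sc {X : Set (Set K)} {O : Set K} (hO : O ∈ X) {w : K} (hw : 0 < w) :
    IsBall X (sc w O) := Or.inr ⟨O, hO, w, hw, rfl⟩

/-- convex additive subgroup -/
structure Grp (B : Set K) : Prop where
  zero : (0 : K) ∈ B
  add : ∀ a ∈ B, ∀ b ∈ B, a + b ∈ B
  conv : ∀ a ∈ B, ∀ b, |b| ≤ |a| → b ∈ B

theorem Grp.neg {B : Set K} (h : Grp B) {a : K} (ha : a ∈ B) : -a ∈ B :=
  h.conv a ha _ (by rw [abs_neg])

theorem Grp.sub {B : Set K} (h : Grp B) {a b : K} (ha : a ∈ B) (hb : b ∈ B) : a - b ∈ B := by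
  rw [sub_eq_add_neg]; exact h.add _ ha _ (h.neg hb)

theorem Grp.between {B : Set K} (h : Grp B) {a b : K} (ha : a ∈ B) (h0 : 0 ≤ b) (hb : b ≤ a) :
    b ∈ B := h.conv a ha _ (by rw [abs_of_nonneg h0, abs_of_nonneg (h0.trans hb)]; exact hb)

theorem IsBall.grp {X : Set (Set K)} (hX : Scales X) {B : Set K} (h : IsBall X B) : Grp B := by
  rcases h with rfl | ⟨O, hO, w, hw, rfl⟩
  · refine ⟨rfl, ?_, ?_⟩
    · rintro a ha b hb
      rw [Set.mem_singleton_iff] at *; rw [ha, hb, add_zero]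
    · rintro a ha b hb
      rw [Set.mem_singleton_iff] at *
      rw [ha, abs_zero] at hb
      exact abs_nonpos_iff.mp hb
  · refine ⟨?_, ?_, ?_⟩
    · show (0 : K) / w ∈ O
      rw [zero_div]
      exact hX.conv O hO 1 (hX.one O hO) 0 (by simp)
    · intro a ha b hb
      show (a + b) / w ∈ O
      rw [add_div]; exact hX.add O hO _ ha _ hb
    · intro a ha b hb
      show b / w ∈ O
      refine hX.conv O hO (a / w) ha _ ?_
      rw [abs_div, abs_div]
      exact div_le_div_of_nonneg_right hb (abs_nonneg w)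

/-- balls are preserved by scaling -/
theorem IsBall.scale {X : Set (Set K)} {B : Set K} (h : IsBall X B) {l : K} (hl : 0 < l) :
    IsBall X {x | l * x ∈ B} := by
  rcases h with rfl | ⟨O, hO, w, hw, rfl⟩
  · left
    ext x
    simp only [Set.mem_ofPred_eq, Set.mem_singleton_iff, mul_eq_zero]
    constructor
    · rintro (h | h)
      · exact absurd h hl.ne'
      · exact h
    · intro h; exact Or.inr h
  · right
    refine ⟨O, hO, w / l, div_pos hw hl, ?_⟩
    ext x
    show l * x / w ∈ O ↔ x / (w / l) ∈ O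
    have : x / (w / l) = l * x / w := by
      rw [div_div_eq_mul_div, mul_comm]
    rw [this]

theorem Up_lower {X : Set (Set K)} (hX : Scales X) {B : Set K} (hB : IsBall X B) (a : K)
    {x y : K} (hxy : x ≤ y) (hy : y ∈ Up a B) : x ∈ Up a B := by
  have hg := hB.grp hX
  rcases lt_or_ge x a with h | h
  · exact Or.inl h
  · right
    rcases hy with hy | hy
    · exact absurd (h.trans hxy) (not_le.mpr hy)
    · exact hg.between hy (by linarith) (by linarith)

theorem Lo_lower {X : Set (Set K)} (hX : Scales X) {B : Set K} (hB : IsBall X B) (a : K)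
    {x y : K} (hxy : x ≤ y) (hy : y ∈ Lo a B) : x ∈ Lo a B := by
  have hg := hB.grp hX
  obtain ⟨h1, h2⟩ := hy
  refine ⟨lt_of_le_of_lt hxy h1, fun h => h2 ?_⟩
  refine hg.conv _ h _ ?_
  rw [abs_of_neg (by linarith), abs_of_neg (by linarith)]; linarith

theorem Allowed.lower {X : Set (Set K)} (hX : Scales X) {D : Set K} (hD : Allowed X D)
    {x y : K} (hxy : x ≤ y) (hy : y ∈ D) : x ∈ D := by
  obtain ⟨a, B, hB, rfl | rfl⟩ := hD
  · exact Up_lower hX hB a hxy hy
  · exact Lo_lower hX hB a hxy hy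

theorem allowed_Iic (X : Set (Set K)) (a : K) : Allowed X (Set.Iic a) := by
  refine ⟨a, {0}, isBall_zero X, Or.inl ?_⟩
  ext y
  simp only [Set.mem_Iic, Up, Set.mem_ofPred_eq, Set.mem_singleton_iff, sub_eq_zero]
  exact le_iff_lt_or_eq

theorem allowed_Iio (X : Set (Set K)) (a : K) : Allowed X (Set.Iio a) := by
  refine ⟨a, {0}, isBall_zero X, Or.inr ?_⟩
  ext y
  simp only [Set.mem_Iio, Lo, Set.mem_ofPred_eq, Set.mem_singleton_iff, sub_eq_zero]
  exact ⟨fun h => ⟨h, h.ne⟩, fun h => h.1⟩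

/-- allowed sets are stable under affine preimages -/
theorem Allowed.preimage {X : Set (Set K)} {D : Set K} (hD : Allowed X D) {l : K} (hl : 0 < l)
    (m : K) : Allowed X {x | l * x + m ∈ D} := by
  obtain ⟨a, B, hB, h⟩ := hD
  refine ⟨(a - m) / l, {x | l * x ∈ B}, hB.scale hl, ?_⟩
  have key : ∀ x, l * (x - (a - m) / l) = l * x + m - a := by
    intro x; field_simp; ring
  have key2 : ∀ x, (x < (a - m) / l ↔ l * x + m < a) := by
    intro x
    rw [lt_div_iff₀ hl]
    constructor <;> intro h <;> linarith [mul_comm x l]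
  rcases h with rfl | rfl
  · left
    ext x
    simp only [Up, Set.mem_ofPred_eq, key, key2]
  · right
    ext x
    simp only [Lo, Set.mem_ofPred_eq, key, key2]

/-- `x` and `y` are not separated by a member of `F` -/
def Eqv (F : Set (Set K)) (x y : K) : Prop := ∀ D ∈ F, (x ∈ D ↔ y ∈ D)

theorem Eqv.refl (F : Set (Set K)) (x : K) : Eqv F x x := fun _ _ => Iff.rfl

/-- piecewise affine (with finitely many pieces cut out by allowed sets) -/
def PA (X : Set (Set K)) (f : K → K) : Prop :=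
  ∃ F : Set (Set K), F.Finite ∧ (∀ D ∈ F, Allowed X D) ∧
    ∃ C : Set (K × K), C.Finite ∧ (∀ p ∈ C, 0 < p.1) ∧
      ∀ x, ∃ p ∈ C, ∀ y, Eqv F x y → f y = p.1 * y + p.2

theorem PA.id (X : Set (Set K)) : PA X (fun x : K => x) := by
  refine ⟨∅, Set.finite_empty, by simp, {(1, 0)}, Set.finite_singleton _, ?_, ?_⟩
  · rintro p rfl; exact one_pos
  · intro x; exact ⟨(1, 0), rfl, fun y _ => by simp⟩

theorem PA.affine (X : Set (Set K)) {l : K} (hl : 0 < l) (m : K) :
    PA X (fun x : K => l * x + m) := by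
  refine ⟨∅, Set.finite_empty, by simp, {(l, m)}, Set.finite_singleton _, ?_, ?_⟩
  · rintro p rfl; exact hl
  · intro x; exact ⟨(l, m), rfl, fun y _ => rfl⟩

theorem PA.comp {X : Set (Set K)} {f g : K → K} (hg : PA X g) (hf : PA X f) :
    PA X (fun x => g (f x)) := by
  obtain ⟨F, hF, hFa, C, hC, hCp, hf⟩ := hf
  obtain ⟨G, hG, hGa, C', hC', hCp', hg⟩ := hg
  refine ⟨F ∪ Set.image2 (fun (p : K × K) (D : Set K) => {x | p.1 * x + p.2 ∈ D}) C G,
    hF.union (hC.image2 _ hG), ?_,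
    Set.image2 (fun (q p : K × K) => (q.1 * p.1, q.1 * p.2 + q.2)) C' C, hC'.image2 _ hC, ?_, ?_⟩
  · rintro D (hD | ⟨p, hp, D', hD', rfl⟩)
    · exact hFa D hD
    · exact (hGa D' hD').preimage (hCp p hp) p.2
  · rintro _ ⟨q, hq, p, hp, rfl⟩
    exact mul_pos (hCp' q hq) (hCp p hp)
  · intro x
    obtain ⟨p, hp, hpx⟩ := hf x
    obtain ⟨q, hq, hqx⟩ := hg (f x)
    refine ⟨_, ⟨q, hq, p, hp, rfl⟩, fun y hy => ?_⟩
    have h1 : f y = p.1 * y + p.2 := hpx y (fun D hD => hy D (Or.inl hD))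
    have h2 : f x = p.1 * x + p.2 := hpx x (Eqv.refl F x)
    have h3 : Eqv G (f x) (f y) := by
      intro D hD
      have := hy {z | p.1 * z + p.2 ∈ D} (Or.inr ⟨p, hp, D, hD, rfl⟩)
      rw [h1, h2]; exact this
    show g (f y) = _
    rw [hqx (f y) h3, h1]; ring

theorem PA.symm {X : Set (Set K)} {f : K ≃o K} (hf : PA X f) : PA X f.symm := by
  obtain ⟨F, hF, hFa, C, hC, hCp, hf⟩ := hf
  refine ⟨Set.image2 (fun (p : K × K) (D : Set K) => {x | p.1⁻¹ * x + (-(p.2 / p.1)) ∈ D}) C F,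
    hC.image2 _ hF, ?_, (fun p : K × K => (p.1⁻¹, -(p.2 / p.1))) '' C, hC.image _, ?_, ?_⟩
  · rintro _ ⟨p, hp, D', hD', rfl⟩
    exact (hFa D' hD').preimage (inv_pos.mpr (hCp p hp)) _
  · rintro _ ⟨p, hp, rfl⟩
    exact inv_pos.mpr (hCp p hp)
  · intro y
    obtain ⟨p, hp, hpx⟩ := hf (f.symm y)
    have hp0 : p.1 ≠ 0 := (hCp p hp).ne'
    have hy : y = p.1 * f.symm y + p.2 := by
      have := hpx (f.symm y) (Eqv.refl F _)
      rwa [f.apply_symm_apply] at this
    refine ⟨_, ⟨p, hp, rfl⟩, fun y' hy' => ?_⟩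
    set x' := p.1⁻¹ * y' + (-(p.2 / p.1)) with hx'
    have hxx : p.1⁻¹ * y + (-(p.2 / p.1)) = f.symm y := by
      generalize f.symm y = u at hy
      rw [hy]
      field_simp
      ring
    have hE : Eqv F (f.symm y) x' := by
      intro D hD
      have := hy' _ ⟨p, hp, D, hD, rfl⟩
      simp only [Set.mem_ofPred_eq] at this
      rw [hxx] at this
      exact this
    have h1 := hpx x' hE
    have h2 : p.1 * x' + p.2 = y' := by
      rw [hx']; field_simp; ring
    rw [h2] at h1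
    show f.symm y' = x'
    rw [← h1, f.symm_apply_apply]

end Pool.Agent.U388.LP
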