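import Mathlib
import Pool.Agent.U388.LP.Basic

set_option autoImplicit false
set_option linter.unusedSectionVars false

namespace Pool.Agent.U388.LP

section Chain

variable {T : Type*} [LinearOrder T]

/-- pointwise maximum of two order automorphisms -/
def supIso (f g : T ≃o T) : T ≃o T where
  toFun x := max (f x) (g x)
  invFun y := min (f.symm y) (g.symm y)
  left_inv x := by
    show min (f.symm (max (f x) (g x))) (g.symm (max (f x) (g x))) = x
    rcases le_total (f x) (g x) with h | h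
    · rw [max_eq_right h, g.symm_apply_apply, min_eq_right]
      exact (f.le_symm_apply).mpr h
    · rw [max_eq_left h, f.symm_apply_apply, min_eq_left]
      exact (g.le_symm_apply).mpr h
  right_inv y := by
    show max (f (min (f.symm y) (g.symm y))) (g (min (f.symm y) (g.symm y))) = y
    rcases le_total (f.symm y) (g.symm y) with h | h
    · rw [min_eq_left h, f.apply_symm_apply, max_eq_left]
      exact (g.le_symm_apply).mp h
    · rw [min_eq_right h, g.apply_symm_apply, max_eq_right]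
      exact (f.le_symm_apply).mp h
  map_rel_iff' := by
    have hs : StrictMono (fun x => max (f x) (g x)) := fun a b hab =>
      max_lt_max (f.strictMono hab) (g.strictMono hab)
    intro a b
    exact hs.le_iff_le

@[simp] theorem supIso_apply (f g : T ≃o T) (x : T) : supIso f g x = max (f x) (g x) := rfl

/-- pointwise minimum of two order automorphisms -/
def infIso (f g : T ≃o T) : T ≃o T where
  toFun x := min (f x) (g x)
  invFun y := max (f.symm y) (g.symm y)
  left_inv x := by
    show max (f.symm (min (f x) (g x))) (g.symm (min (f x) (g x))) = x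
    rcases le_total (f x) (g x) with h | h
    · rw [min_eq_left h, f.symm_apply_apply, max_eq_left]
      exact (g.symm_apply_le).mpr h
    · rw [min_eq_right h, g.symm_apply_apply, max_eq_right]
      exact (f.symm_apply_le).mpr h
  right_inv y := by
    show min (f (max (f.symm y) (g.symm y))) (g (max (f.symm y) (g.symm y))) = y
    rcases le_total (f.symm y) (g.symm y) with h | h
    · rw [max_eq_right h, g.apply_symm_apply, min_eq_right]
      exact (f.symm_apply_le).mp h
    · rw [max_eq_left h, f.apply_symm_apply, min_eq_left]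
      exact (g.symm_apply_le).mp h
  map_rel_iff' := by
    have hs : StrictMono (fun x => min (f x) (g x)) := fun a b hab =>
      min_lt_min (f.strictMono hab) (g.strictMono hab)
    intro a b
    exact hs.le_iff_le

@[simp] theorem infIso_apply (f g : T ≃o T) (x : T) : infIso f g x = min (f x) (g x) := rfl

open Classical in
/-- glueing of two order automorphisms along a lower set preserved by both -/
noncomputable def glue (D : Set T) (hD : ∀ x y, x ≤ y → y ∈ D → x ∈ D) (f g : T ≃o T)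
    (hf : ∀ x, x ∈ D ↔ f x ∈ D) (hg : ∀ x, x ∈ D ↔ g x ∈ D) : T ≃o T where
  toFun x := if x ∈ D then f x else g x
  invFun y := if y ∈ D then f.symm y else g.symm y
  left_inv x := by
    by_cases h : x ∈ D
    · have h' : f x ∈ D := (hf x).mp h
      simp [h, h']
    · have h' : g x ∉ D := fun h' => h ((hg x).mpr h')
      simp [h, h']
  right_inv y := by
    by_cases h : y ∈ D
    · have h' : f.symm y ∈ D := (hf _).mpr (by simpa using h)
      simp [h, h']
    · have h' : g.symm y ∉ D := fun h' => h (by simpa using (hg _).mp h')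
      simp [h, h']
  map_rel_iff' := by
    have hs : StrictMono (fun x => if x ∈ D then f x else g x) := by
      intro a b hab
      by_cases ha : a ∈ D
      · by_cases hb : b ∈ D
        · simp [ha, hb, hab]
        · simp only [ha, hb, if_true, if_false]
          by_contra hc
          exact hb ((hg b).mpr (hD _ _ (not_lt.mp hc) ((hf a).mp ha)))
      · have hb : b ∉ D := fun hb => ha (hD _ _ hab.le hb)
        simp [ha, hb, hab]
    intro a b
    exact hs.le_iff_le

theorem glue_of_mem {D : Set T} {hD : ∀ x y, x ≤ y → y ∈ D → x ∈ D} {f g : T ≃o T}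
    {hf : ∀ x, x ∈ D ↔ f x ∈ D} {hg : ∀ x, x ∈ D ↔ g x ∈ D} {x : T} (h : x ∈ D) :
    glue D hD f g hf hg x = f x := if_pos h

theorem glue_of_not_mem {D : Set T} {hD : ∀ x y, x ≤ y → y ∈ D → x ∈ D} {f g : T ≃o T}
    {hf : ∀ x, x ∈ D ↔ f x ∈ D} {hg : ∀ x, x ∈ D ↔ g x ∈ D} {x : T} (h : x ∉ D) :
    glue D hD f g hf hg x = g x := if_neg h

end Chain

variable {K : Type*} [Field K] [LinearOrder K] [IsStrictOrderedRing K]

theorem PA.sup {X : Set (Set K)} {f g : K → K} (hf : PA X f) (hg : PA X g) :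
    PA X (fun x => max (f x) (g x)) := by
  obtain ⟨F, hF, hFa, C, hC, hCp, hf⟩ := hf
  obtain ⟨G, hG, hGa, C', hC', hCp', hg⟩ := hg
  let cr : K × K → K × K → K := fun p q => (q.2 - p.2) / (p.1 - q.1)
  refine ⟨(F ∪ G) ∪ (Set.image2 (fun p q => Set.Iio (cr p q)) C C' ∪
      Set.image2 (fun p q => Set.Iic (cr p q)) C C'),
    (hF.union hG).union ((hC.image2 _ hC').union (hC.image2 _ hC')), ?_, C ∪ C', hC.union hC',
    ?_, ?_⟩
  · rintro D ((hD | hD) | (⟨p, _, q, _, rfl⟩ | ⟨p, _, q, _, rfl⟩))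
    · exact hFa D hD
    · exact hGa D hD
    · exact allowed_Iio X _
    · exact allowed_Iic X _
  · rintro p (hp | hp)
    · exact hCp p hp
    · exact hCp' p hp
  · intro x
    obtain ⟨p, hp, hpx⟩ := hf x
    obtain ⟨q, hq, hqx⟩ := hg x
    -- the sign of `p - q` is constant on the class of `x`
    have key : ∀ y, Eqv ((F ∪ G) ∪ (Set.image2 (fun p q => Set.Iio (cr p q)) C C' ∪
        Set.image2 (fun p q => Set.Iic (cr p q)) C C')) x y →
        (q.1 * x + q.2 ≤ p.1 * x + p.2 ↔ q.1 * y + q.2 ≤ p.1 * y + p.2) := by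
      intro y hy
      have h1 : x < cr p q ↔ y < cr p q := hy _ (Or.inr (Or.inl ⟨p, hp, q, hq, rfl⟩))
      have h2 : x ≤ cr p q ↔ y ≤ cr p q := hy _ (Or.inr (Or.inr ⟨p, hp, q, hq, rfl⟩))
      rcases lt_trichotomy p.1 q.1 with h | h | h
      · have h3 : ∀ z, q.1 * z + q.2 ≤ p.1 * z + p.2 ↔ z ≤ cr p q := by
          intro z
          show _ ↔ z ≤ (q.2 - p.2) / (p.1 - q.1)
          rw [le_div_iff_of_neg (by linarith)]
          constructor <;> intro h' <;> nlinarith
        rw [h3, h3]; exact h2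
      · rw [h]; constructor <;> intro h' <;> linarith
      · have h3 : ∀ z, q.1 * z + q.2 ≤ p.1 * z + p.2 ↔ ¬ z < cr p q := by
          intro z
          rw [not_lt]
          show _ ↔ (q.2 - p.2) / (p.1 - q.1) ≤ z
          rw [div_le_iff₀ (by linarith)]
          constructor <;> intro h' <;> nlinarith
        rw [h3, h3, h1]
    by_cases hpq : q.1 * x + q.2 ≤ p.1 * x + p.2
    · refine ⟨p, Or.inl hp, fun y hy => ?_⟩
      have e1 := hpx y (fun D hD => hy D (Or.inl (Or.inl hD)))
      have e2 := hqx y (fun D hD => hy D (Or.inl (Or.inr hD)))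
      show max (f y) (g y) = _
      rw [e1, e2, max_eq_left ((key y hy).mp hpq)]
    · refine ⟨q, Or.inr hq, fun y hy => ?_⟩
      have e1 := hpx y (fun D hD => hy D (Or.inl (Or.inl hD)))
      have e2 := hqx y (fun D hD => hy D (Or.inl (Or.inr hD)))
      show max (f y) (g y) = _
      rw [e1, e2, max_eq_right]
      exact (not_le.mp (fun h => hpq ((key y hy).mpr h))).le

theorem PA.inf {X : Set (Set K)} {f g : K ≃o K} (hf : PA X f) (hg : PA X g) :
    PA X (infIso f g) := by
  have h1 : PA X (supIso f.symm g.symm) := PA.sup hf.symm hg.symm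
  have h2 := h1.symm
  have h3 : (supIso f.symm g.symm).symm = infIso f g := by
    ext x; rfl
  rw [h3] at h2; exact h2

theorem PA.glue {X : Set (Set K)} {D : Set K} (hDa : Allowed X D)
    {hD : ∀ x y, x ≤ y → y ∈ D → x ∈ D} {f g : K ≃o K}
    {hf : ∀ x, x ∈ D ↔ f x ∈ D} {hg : ∀ x, x ∈ D ↔ g x ∈ D} (hf' : PA X f) (hg' : PA X g) :
    PA X (glue D hD f g hf hg) := by
  obtain ⟨F, hF, hFa, C, hC, hCp, hf2⟩ := hf'
  obtain ⟨G, hG, hGa, C', hC', hCp', hg2⟩ := hg'
  refine ⟨(F ∪ G) ∪ {D}, (hF.union hG).union (Set.finite_singleton _), ?_, C ∪ C',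
    hC.union hC', ?_, ?_⟩
  · rintro D' ((hD | hD) | hD)
    · exact hFa _ hD
    · exact hGa _ hD
    · rw [Set.mem_singleton_iff] at hD; rw [hD]; exact hDa
  · rintro p (hp | hp)
    · exact hCp p hp
    · exact hCp' p hp
  · intro x
    by_cases hx : x ∈ D
    · obtain ⟨p, hp, hpx⟩ := hf2 x
      refine ⟨p, Or.inl hp, fun y hy => ?_⟩
      have hyD : y ∈ D := (hy D (Or.inr rfl)).mp hx
      rw [glue_of_mem hyD]
      exact hpx y (fun D hD => hy D (Or.inl (Or.inl hD)))
    · obtain ⟨p, hp, hpx⟩ := hg2 x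
      refine ⟨p, Or.inr hp, fun y hy => ?_⟩
      have hyD : y ∉ D := fun h => hx ((hy D (Or.inr rfl)).mpr h)
      rw [glue_of_not_mem hyD]
      exact hpx y (fun D hD => hy D (Or.inl (Or.inr hD)))

/-- bounded support -/
def Bdd {T : Type*} [LinearOrder T] (f : T → T) : Prop :=
  ∃ t₁ t₂, ∀ s, (s < t₁ → f s = s) ∧ (t₂ < s → f s = s)

/-- the group of piecewise affine automorphisms with bounded support -/
def L (X : Set (Set K)) : Subgroup (K ≃o K) where
  carrier := {f | PA X f ∧ Bdd f}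
  mul_mem' := by
    rintro f g ⟨hf, a, b, hf'⟩ ⟨hg, c, d, hg'⟩
    have hfg0 : PA X (fun x => f (g x)) := PA.comp hf hg
    have hfg : PA X (⇑(f * g)) := hfg0
    refine ⟨hfg, min a c, max b d, fun s => ⟨fun hs => ?_, fun hs => ?_⟩⟩
    · show f (g s) = s
      rw [(hg' s).1 (lt_of_lt_of_le hs (min_le_right _ _)),
        (hf' s).1 (lt_of_lt_of_le hs (min_le_left _ _))]
    · show f (g s) = s
      rw [(hg' s).2 (lt_of_le_of_lt (le_max_right _ _) hs),
        (hf' s).2 (lt_of_le_of_lt (le_max_left _ _) hs)]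
  one_mem' := ⟨PA.id X, 0, 0, fun s => ⟨fun _ => rfl, fun _ => rfl⟩⟩
  inv_mem' := by
    rintro f ⟨hf, a, b, hf'⟩
    refine ⟨hf.symm, a, b, fun s => ⟨fun hs => ?_, fun hs => ?_⟩⟩
    · show f.symm s = s
      rw [f.symm_apply_eq]; exact ((hf' s).1 hs).symm
    · show f.symm s = s
      rw [f.symm_apply_eq]; exact ((hf' s).2 hs).symm

theorem mem_L {X : Set (Set K)} {f : K ≃o K} : f ∈ L X ↔ PA X f ∧ Bdd f := Iff.rfl

theorem sup_mem {X : Set (Set K)} {f g : K ≃o K} (hf : f ∈ L X) (hg : g ∈ L X) :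
    supIso f g ∈ L X := by
  obtain ⟨hf, a, b, hf'⟩ := hf
  obtain ⟨hg, c, d, hg'⟩ := hg
  refine ⟨PA.sup hf hg, min a c, max b d, fun s => ⟨fun hs => ?_, fun hs => ?_⟩⟩
  · rw [supIso_apply, (hg' s).1 (lt_of_lt_of_le hs (min_le_right _ _)),
      (hf' s).1 (lt_of_lt_of_le hs (min_le_left _ _)), max_self]
  · rw [supIso_apply, (hg' s).2 (lt_of_le_of_lt (le_max_right _ _) hs),
      (hf' s).2 (lt_of_le_of_lt (le_max_left _ _) hs), max_self]

theorem inf_mem {X : Set (Set K)} {f g : K ≃o K} (hf : f ∈ L X) (hg : g ∈ L X) :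
    infIso f g ∈ L X := by
  obtain ⟨hf, a, b, hf'⟩ := hf
  obtain ⟨hg, c, d, hg'⟩ := hg
  refine ⟨PA.inf hf hg, min a c, max b d, fun s => ⟨fun hs => ?_, fun hs => ?_⟩⟩
  · rw [infIso_apply, (hg' s).1 (lt_of_lt_of_le hs (min_le_right _ _)),
      (hf' s).1 (lt_of_lt_of_le hs (min_le_left _ _)), min_self]
  · rw [infIso_apply, (hg' s).2 (lt_of_le_of_lt (le_max_right _ _) hs),
      (hf' s).2 (lt_of_le_of_lt (le_max_left _ _) hs), min_self]

/-- the affine automorphism `x ↦ l x + m` -/
def aff (l m : K) (hl : 0 < l) : K ≃o K where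
  toFun x := l * x + m
  invFun y := (y - m) / l
  left_inv x := by field_simp; ring
  right_inv y := by field_simp; ring
  map_rel_iff' := by
    intro a b
    show l * a + m ≤ l * b + m ↔ a ≤ b
    rw [add_le_add_iff_right, mul_le_mul_iff_right₀ hl]

@[simp] theorem aff_apply (l m : K) (hl : 0 < l) (x : K) : aff l m hl x = l * x + m := rfl

/-- pushing `c` up to `d` inside `(a, b)` -/
theorem move_up (X : Set (Set K)) {a b c d : K} (hac : a < c) (hcd : c < d) (hdb : d < b) :
    ∃ f ∈ L X, (∀ x, x ≤ a → f x = x) ∧ (∀ x, b ≤ x → f x = x) ∧ f c = d := by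
  have h1 : (0 : K) < (d - a) / (c - a) := div_pos (by linarith) (by linarith)
  have h2 : (0 : K) < (b - d) / (b - c) := div_pos (by linarith) (by linarith)
  set l₁ := (d - a) / (c - a) with hl1
  set l₂ := (b - d) / (b - c) with hl2
  have hl1' : 1 ≤ l₁ := by
    rw [hl1, le_div_iff₀ (by linarith)]; linarith
  have hl2' : l₂ ≤ 1 := by
    rw [hl2, div_le_iff₀ (by linarith)]; linarith
  set A := aff l₁ (a - l₁ * a) h1
  set B := aff l₂ (b - l₂ * b) h2
  set f := supIso (1 : K ≃o K) (infIso A B) with hf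
  have hfa : ∀ x, f x = max x (min (l₁ * x + (a - l₁ * a)) (l₂ * x + (b - l₂ * b))) := fun x => rfl
  have hlow : ∀ x, x ≤ a → f x = x := by
    intro x hx
    rw [hfa, max_eq_left]
    refine (min_le_left _ _).trans ?_
    nlinarith
  have hhigh : ∀ x, b ≤ x → f x = x := by
    intro x hx
    rw [hfa, max_eq_left]
    refine (min_le_right _ _).trans ?_
    nlinarith
  refine ⟨f, ⟨PA.sup (PA.id X) (PA.inf (PA.affine X h1 _) (PA.affine X h2 _)), a, b,
    fun s => ⟨fun hs => hlow s hs.le, fun hs => hhigh s hs.le⟩⟩, hlow, hhigh, ?_⟩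
  have e1 : l₁ * c + (a - l₁ * a) = d := by
    have : l₁ * (c - a) = d - a := by rw [hl1]; field_simp [sub_ne_zero.mpr hac.ne']
    linarith
  have e2 : l₂ * c + (b - l₂ * b) = d := by
    have : l₂ * (b - c) = b - d := by
      rw [hl2]; field_simp [sub_ne_zero.mpr (hcd.trans hdb).ne']
    linarith
  rw [hfa, e1, e2, min_self, max_eq_right hcd.le]

theorem move (X : Set (Set K)) {a b c d : K} (hac : a < c) (hcb : c < b) (had : a < d)
    (hdb : d < b) :
    ∃ f ∈ L X, (∀ x, x ≤ a → f x = x) ∧ (∀ x, b ≤ x → f x = x) ∧ f c = d := by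
  rcases lt_trichotomy c d with h | h | h
  · exact move_up X hac h hdb
  · exact ⟨1, (L X).one_mem, fun _ _ => rfl, fun _ _ => rfl, h⟩
  · obtain ⟨f, hf, h1, h2, h3⟩ := move_up X had h hcb
    refine ⟨f⁻¹, (L X).inv_mem hf, ?_, ?_, ?_⟩
    · intro x hx
      show f.symm x = x
      rw [f.symm_apply_eq]; exact (h1 x hx).symm
    · intro x hx
      show f.symm x = x
      rw [f.symm_apply_eq]; exact (h2 x hx).symm
    · show f.symm c = d
      rw [f.symm_apply_eq]; exact h3.symm

theorem two_trans (X : Set (Set K)) {r₁ r₂ s₁ s₂ : K} (hr : r₁ < r₂) (hs : s₁ < s₂) :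
    ∃ f ∈ L X, f r₁ = s₁ ∧ f r₂ = s₂ := by
  obtain ⟨f, hf, -, -, h1⟩ := move X (a := min r₁ s₁ - 1) (b := max r₁ s₁ + 1) (c := r₁) (d := s₁)
    (by linarith [min_le_left r₁ s₁]) (by linarith [le_max_left r₁ s₁])
    (by linarith [min_le_right r₁ s₁]) (by linarith [le_max_right r₁ s₁])
  have h2 : s₁ < f r₂ := by rw [← h1]; exact f.strictMono hr
  obtain ⟨g, hg, h3, -, h4⟩ := move X (a := s₁) (b := max (f r₂) s₂ + 1) (c := f r₂) (d := s₂)
    h2 (by linarith [le_max_left (f r₂) s₂]) hs (by linarith [le_max_right (f r₂) s₂])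
  refine ⟨g * f, (L X).mul_mem hg hf, ?_, h4⟩
  show g (f r₁) = s₁
  rw [h1]; exact h3 s₁ le_rfl

end Pool.Agent.U388.LP
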