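import Mathlib
import Pool.Agent.U388.LP.Basic

set_option autoImplicit false
set_option linter.unusedSectionVars false

namespace Pool.Agent.U388.LP

open Filter

/-- a field for our purposes: germs of real sequences along a nonprincipal ultrafilter -/
abbrev HR : Type := Germ (hyperfilter ℕ : Filter ℕ) ℝ

/-- infinite elements -/
def Infte (x : HR) : Prop := ∀ n : ℕ, (n : HR) < x

/-- the largest convex subring avoiding `x` -/
def OO (x : HR) : Set HR := {y | ∀ n : ℕ, |y| ^ n < x}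

/-- the chain of convex subrings -/
def XX : Set (Set HR) := {O | ∃ x, Infte x ∧ O = OO x}

theorem coe_pow' (f : ℕ → ℝ) (n : ℕ) : ((f : HR)) ^ n = ((fun k => f k ^ n : ℕ → ℝ) : HR) := rfl

theorem lt_iff (f g : ℕ → ℝ) : ((f : HR) < (g : HR)) ↔ ∀ᶠ k in (hyperfilter ℕ : Filter ℕ), f k < g k :=
  Germ.coe_lt

theorem natCast_eq (n : ℕ) : (n : HR) = ((fun _ => (n : ℝ) : ℕ → ℝ) : HR) := rfl

theorem abs_coe (f : ℕ → ℝ) : |(f : HR)| = ((fun k => |f k| : ℕ → ℝ) : HR) := by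
  rw [Germ.abs_def]; rfl

theorem eventually_ge_nat (N : ℕ) : ∀ᶠ k in (hyperfilter ℕ : Filter ℕ), N ≤ k :=
  Filter.hyperfilter_le_cofinite (by
    rw [Nat.cofinite_eq_atTop]; exact eventually_ge_atTop N)

theorem Infte.one_lt {x : HR} (hx : Infte x) : 1 < x := by simpa using hx 1

theorem pow_bound {x m : HR} (hx : Infte x) (hm0 : 0 ≤ m) (hm : ∀ n : ℕ, m ^ n < x) (n : ℕ) :
    (2 * m) ^ n < x := by
  have hx0 : 0 < x := lt_trans one_pos hx.one_lt
  have h1 : (4 : HR) ^ n < x := by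
    have := hx (4 ^ n)
    push_cast at this
    exact this
  have h2 : m ^ (2 * n) < x := hm (2 * n)
  have h3 : ((2 * m) ^ n) ^ 2 < x ^ 2 := by
    have e : ((2 * m) ^ n) ^ 2 = 4 ^ n * m ^ (2 * n) := by
      rw [← pow_mul, mul_pow, mul_comm n 2, pow_mul 2 2 n]; norm_num
    rw [e, sq]
    exact mul_lt_mul'' h1 h2 (by positivity) (by positivity)
  exact lt_of_pow_lt_pow_left₀ 2 hx0.le h3

theorem OO_add {x : HR} (hx : Infte x) {a b : HR} (ha : a ∈ OO x) (hb : b ∈ OO x) :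
    a + b ∈ OO x := by
  intro n
  have h1 : |a + b| ≤ 2 * max |a| |b| := by
    have := abs_add_le a b
    linarith [le_max_left |a| |b|, le_max_right |a| |b|]
  have h2 : ∀ n : ℕ, (max |a| |b|) ^ n < x := by
    intro n
    rcases max_choice |a| |b| with h | h
    · rw [h]; exact ha n
    · rw [h]; exact hb n
  exact lt_of_le_of_lt (pow_le_pow_left₀ (abs_nonneg _) h1 n)
    (pow_bound hx (le_max_of_le_left (abs_nonneg a)) h2 n)

theorem OO_mul {x : HR} {a b : HR} (ha : a ∈ OO x) (hb : b ∈ OO x) :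
    a * b ∈ OO x := by
  intro n
  have h1 : |a * b| ≤ (max |a| |b|) ^ 2 := by
    rw [abs_mul, sq]
    exact mul_le_mul (le_max_left _ _) (le_max_right _ _) (abs_nonneg b)
      (le_max_of_le_left (abs_nonneg a))
  have h2 : ∀ n : ℕ, (max |a| |b|) ^ n < x := by
    intro n
    rcases max_choice |a| |b| with h | h
    · rw [h]; exact ha n
    · rw [h]; exact hb n
  refine lt_of_le_of_lt (pow_le_pow_left₀ (abs_nonneg _) h1 n) ?_
  rw [← pow_mul]; exact h2 _

theorem OO_one {x : HR} (hx : Infte x) : (1 : HR) ∈ OO x := by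
  intro n
  rw [abs_one, one_pow]; exact hx.one_lt

theorem OO_conv {x : HR} {a b : HR} (ha : a ∈ OO x) (hb : |b| ≤ |a|) : b ∈ OO x := fun n =>
  lt_of_le_of_lt (pow_le_pow_left₀ (abs_nonneg _) hb n) (ha n)

theorem OO_not_mem {x : HR} (hx : Infte x) : x ∉ OO x := by
  intro h
  have := h 1
  rw [pow_one, abs_of_pos (lt_trans one_pos hx.one_lt)] at this
  exact lt_irrefl _ this

theorem exh_aux (a : HR) : ∃ x, Infte x ∧ a ∈ OO x := by
  obtain ⟨f, rfl⟩ : ∃ f : ℕ → ℝ, (f : HR) = a := Quot.exists_rep a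
  have h2 : ∀ k, (1 : ℝ) < |f k| + 2 := fun k => by linarith [abs_nonneg (f k)]
  refine ⟨((fun k => (|f k| + 2) ^ k : ℕ → ℝ) : HR), ?_, ?_⟩
  · intro n
    rw [natCast_eq, lt_iff]
    filter_upwards [eventually_ge_nat n] with k hk
    calc (n : ℝ) ≤ k := by exact_mod_cast hk
      _ < 2 ^ k := by exact_mod_cast Nat.lt_two_pow_self
      _ ≤ (|f k| + 2) ^ k := pow_le_pow_left₀ (by norm_num) (by linarith [abs_nonneg (f k)]) k
  · intro n
    rw [abs_coe, coe_pow', lt_iff]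
    filter_upwards [eventually_ge_nat (n + 1)] with k hk
    calc |f k| ^ n ≤ (|f k| + 2) ^ n := pow_le_pow_left₀ (abs_nonneg _) (by linarith) n
      _ < (|f k| + 2) ^ k := pow_lt_pow_right₀ (h2 k) (by omega)

theorem sub_aux {x a : HR} (hx : Infte x) (ha : a ∈ OO x) :
    ∃ x', Infte x' ∧ (∀ n : ℕ, |a| ^ n < x') ∧ ∀ n : ℕ, x' ^ n < x := by
  classical
  have h2 : (|a| + 2) ∈ OO x := by
    apply OO_add hx
    · exact OO_conv ha (by rw [abs_abs])
    · have := OO_add hx (OO_one hx) (OO_one hx)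
      rwa [one_add_one_eq_two] at this
  obtain ⟨f, rfl⟩ : ∃ f : ℕ → ℝ, (f : HR) = a := Quot.exists_rep a
  obtain ⟨g, rfl⟩ : ∃ g : ℕ → ℝ, (g : HR) = x := Quot.exists_rep x
  let m : ℕ → ℝ := fun k => |f k| + 2
  have hm : ∀ k, (2 : ℝ) ≤ m k := fun k => by
    show (2 : ℝ) ≤ |f k| + 2
    linarith [abs_nonneg (f k)]
  have hm1 : ∀ k, (1 : ℝ) < m k := fun k => by linarith [hm k]
  have hfm : ∀ k, |f k| ≤ m k := fun k => by
    show |f k| ≤ |f k| + 2
    linarith
  have hmem : ∀ n : ℕ, ∀ᶠ k in (hyperfilter ℕ : Filter ℕ), m k ^ n < g k := by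
    intro n
    have h3 := h2 n
    have h4 : |(|(f : HR)| + 2)| = ((m : ℕ → ℝ) : HR) := by
      rw [abs_of_nonneg (by positivity), abs_coe]; rfl
    rw [h4, coe_pow', lt_iff] at h3
    exact h3
  let P : ℕ → ℕ → Prop := fun k N => m k ^ (N ^ 2) < g k
  let ν : ℕ → ℕ := fun k => Nat.findGreatest (P k) k
  have hν : ∀ N : ℕ, ∀ᶠ k in (hyperfilter ℕ : Filter ℕ), N ≤ ν k ∧ m k ^ ((ν k) ^ 2) < g k := by
    intro N
    filter_upwards [hmem (N ^ 2), eventually_ge_nat N] with k hk1 hk2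
    exact ⟨Nat.le_findGreatest hk2 hk1, Nat.findGreatest_spec (P := P k) hk2 hk1⟩
  refine ⟨((fun k => m k ^ ν k : ℕ → ℝ) : HR), ?_, ?_, ?_⟩
  · intro n
    rw [natCast_eq, lt_iff]
    filter_upwards [hν n] with k hk
    calc (n : ℝ) < 2 ^ n := by exact_mod_cast Nat.lt_two_pow_self
      _ ≤ m k ^ n := pow_le_pow_left₀ (by norm_num) (hm k) n
      _ ≤ m k ^ ν k := pow_le_pow_right₀ (hm1 k).le hk.1
  · intro n
    rw [abs_coe, coe_pow', lt_iff]
    filter_upwards [hν (n + 1)] with k hk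
    calc |f k| ^ n ≤ m k ^ n := pow_le_pow_left₀ (abs_nonneg _) (hfm k) n
      _ < m k ^ ν k := pow_lt_pow_right₀ (hm1 k) (by omega)
  · intro n
    rw [coe_pow', lt_iff]
    filter_upwards [hν n] with k hk
    calc (m k ^ ν k) ^ n = m k ^ (ν k * n) := by rw [← pow_mul]
      _ ≤ m k ^ ((ν k) ^ 2) := by
        apply pow_le_pow_right₀ (hm1 k).le
        rw [sq]; exact Nat.mul_le_mul_left _ hk.1
      _ < g k := hk.2

theorem scales_XX : Scales XX where
  one := by rintro O ⟨x, hx, rfl⟩; exact OO_one hx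
  add := by rintro O ⟨x, hx, rfl⟩ a ha b hb; exact OO_add hx ha hb
  mul := by rintro O ⟨x, hx, rfl⟩ a ha b hb; exact OO_mul ha hb
  conv := by rintro O ⟨x, hx, rfl⟩ a ha b hb; exact OO_conv ha hb
  proper := by rintro O ⟨x, hx, rfl⟩; exact ⟨x, OO_not_mem hx⟩
  exh := by
    intro a
    obtain ⟨x, hx, ha⟩ := exh_aux a
    exact ⟨OO x, ⟨x, hx, rfl⟩, ha⟩
  sub := by
    rintro O ⟨x, hx, rfl⟩ a ha
    obtain ⟨x', hx', h1, h2⟩ := sub_aux hx ha
    refine ⟨OO x', ⟨x', hx', rfl⟩, ?_, h1, x', ?_, OO_not_mem hx'⟩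
    · intro y hy n
      have := h2 1
      rw [pow_one] at this
      exact (hy n).trans this
    · intro n
      rw [abs_of_pos (lt_trans one_pos hx'.one_lt)]
      exact h2 n

end Pool.Agent.U388.LP
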