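import Mathlib
import Pool.Agent.U388.LP.Group

set_option autoImplicit false
set_option linter.unusedSectionVars false

namespace Pool.Agent.U388.LP

variable {K : Type*} [Field K] [LinearOrder K] [IsStrictOrderedRing K]

theorem half_mem {O : Set K} {X : Set (Set K)} (hX : Scales X) (hO : O ∈ X) {a : K} (ha : a ∈ O) :
    a / 2 ∈ O := hX.conv O hO a ha _ (by
      rw [abs_div, abs_two]
      have := abs_nonneg a
      linarith [half_le_self this])

theorem abs_lt_of_not_mem {O : Set K} {X : Set (Set K)} (hX : Scales X) (hO : O ∈ X) {a t : K}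
    (ha : a ∈ O) (ht : t ∉ O) : |a| < |t| := by
  by_contra h
  exact ht (hX.conv O hO a ha t (not_lt.mp h))

/-- elements of a scale divided by an element outside of it are small for every scale -/
theorem div_mem {O O' : Set K} {X : Set (Set K)} (hX : Scales X) (hO : O ∈ X) (hO' : O' ∈ X)
    {a t : K} (ha : a ∈ O) (ht : t ∉ O) : a / t ∈ O' := by
  have h := abs_lt_of_not_mem hX hO ha ht
  refine hX.conv O' hO' 1 (hX.one O' hO') _ ?_
  rw [abs_div, abs_one]
  exact div_le_one_of_le₀ h.le (abs_nonneg t)

/-- The splitting lemma: an allowed cut fixed by `f` just above the set `E` on which `f` is the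
identity. -/
theorem split {X : Set (Set K)} (hX : Scales X) (f : K ≃o K) (hf : ∀ t, t ≤ f t)
    {E : Set K} (hE : Allowed X E) (hid : ∀ x ∈ E, f x = x) {i₀ l m : K} (hl : 0 < l)
    (hi : i₀ ∉ E) (hi0 : f i₀ ≠ i₀) (haff : ∀ y, y ∉ E → y ≤ i₀ → f y = l * y + m) :
    ∃ D, Allowed X D ∧ (∀ y ∈ E, y ∈ D) ∧ i₀ ∉ D ∧ (∀ y ∈ D, f y ∈ D) ∧
      ∃ y₁ y₂, y₁ ≠ y₂ ∧ y₁ ∈ D ∧ y₂ ∈ D ∧ y₁ ∉ E ∧ y₂ ∉ E := by
  -- general facts
  have hm1 : ∀ y, y ∉ E → f y ∉ E := by
    intro y hy h
    have := hid _ h
    exact hy (by rw [f.injective this] at h; exact h)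
  have hm2 : ∀ y', y' ∉ E → ∃ x, x ∉ E ∧ x ≤ y' ∧ f x = y' := by
    intro y' hy'
    refine ⟨f.symm y', ?_, ?_, f.apply_symm_apply y'⟩
    · intro h
      have := hid _ h
      rw [f.apply_symm_apply] at this
      exact hy' (by rw [this]; exact h)
    · have := hf (f.symm y')
      rwa [f.apply_symm_apply] at this
  -- the case in which `E` ends at a point fixed by the affine map
  have point : ∀ a, a < i₀ → l * a + m = a → (∀ y ∈ E, y ≤ a) → (∀ y, a < y → y ∉ E) →
      (∀ y ∈ E, f y = y) → f a = a →
      ∃ D, Allowed X D ∧ (∀ y ∈ E, y ∈ D) ∧ i₀ ∉ D ∧ (∀ y ∈ D, f y ∈ D) ∧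
      ∃ y₁ y₂, y₁ ≠ y₂ ∧ y₁ ∈ D ∧ y₂ ∈ D ∧ y₁ ∉ E ∧ y₂ ∉ E := by
    intro a hai hfix hEa hEa' _ hfa
    obtain ⟨O, hO, hlO⟩ := hX.exh l
    obtain ⟨s, hs⟩ := hX.proper O hO
    have hs' : |s| ∉ O := fun h => hs (hX.conv O hO _ h _ (by rw [abs_abs]))
    have hs0 : 0 < |s| := by
      rcases (abs_nonneg s).eq_or_lt with h | h
      · exfalso; apply hs'; rw [← h]
        exact hX.conv O hO 1 (hX.one O hO) 0 (by simp)
      · exact h
    set w := (i₀ - a) / |s| with hw
    have hw0 : 0 < w := div_pos (by linarith) hs0
    have hsc : (i₀ - a) / w = |s| := by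
      rw [hw]; field_simp [(sub_pos.mpr hai).ne', hs0.ne']
    refine ⟨Up a (sc w O), ⟨a, _, isBall_sc hO hw0, Or.inl rfl⟩, ?_, ?_, ?_,
      a + w, a + w / 2, ?_, ?_, ?_, ?_, ?_⟩
    · intro y hy
      rcases (hEa y hy).lt_or_eq with h | h
      · exact Or.inl h
      · right
        show (y - a) / w ∈ O
        rw [h, sub_self, zero_div]
        exact hX.conv O hO 1 (hX.one O hO) 0 (by simp)
    · rintro (h | h)
      · linarith
      · apply hs'
        have h' : (i₀ - a) / w ∈ O := h
        rwa [hsc] at h'
    · intro y hy
      rcases lt_or_ge a y with h | h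
      · have hyi : y ≤ i₀ := by
          by_contra hc
          rcases hy with hy | hy
          · linarith
          · apply hs'
            have hy' : (y - a) / w ∈ O := hy
            refine hX.conv O hO _ hy' _ ?_
            rw [← hsc, abs_div (i₀ - a) w, abs_div (y - a) w]
            apply div_le_div_of_nonneg_right _ (abs_nonneg w)
            rw [abs_of_pos (by linarith), abs_of_pos (by linarith)]
            linarith
        rw [haff y (hEa' y h) hyi]
        right
        rcases hy with hy | hy
        · linarith
        show (l * y + m - a) / w ∈ O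
        have : (l * y + m - a) / w = l * ((y - a) / w) := by
          have : l * y + m - a = l * (y - a) := by linarith
          rw [this, mul_div_assoc]
        rw [this]
        exact hX.mul O hO _ hlO _ hy
      · rcases h.lt_or_eq with h | h
        · have : f y < f a := f.strictMono h
          rw [hfa] at this
          exact Or.inl this
        · rw [h, hfa]; rw [h] at hy; exact hy
    · intro h; linarith
    · right; show (a + w - a) / w ∈ O
      rw [add_sub_cancel_left, div_self hw0.ne']; exact hX.one O hO
    · right; show (a + w / 2 - a) / w ∈ O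
      have : (a + w / 2 - a) / w = 1 / 2 := by field_simp; ring
      rw [this]; exact half_mem hX hO (hX.one O hO)
    · exact hEa' _ (by linarith)
    · exact hEa' _ (by linarith)
  obtain ⟨a, B, hB, rfl | rfl⟩ := hE
  · -- E = Up a B
    have hB' := hB
    rcases hB with rfl | ⟨O, hO, w, hw0, rfl⟩
    · have hEiff : ∀ y, y ∈ Up a ({0} : Set K) ↔ y ≤ a := by
        intro y
        simp only [Up, Set.mem_ofPred_eq, Set.mem_singleton_iff, sub_eq_zero]
        exact le_iff_lt_or_eq.symm
      have hai : a < i₀ := by
        by_contra h; exact hi ((hEiff _).mpr (not_lt.mp h))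
      have hfa : f a = a := hid a ((hEiff a).mpr le_rfl)
      have haff' : ∀ y, a < y → y ≤ i₀ → f y = l * y + m := fun y h1 h2 =>
        haff y (fun h => absurd ((hEiff y).mp h) (not_le.mpr h1)) h2
      have hgt : ∀ y, a < y → a < f y := fun y hy => by
        have := f.strictMono hy; rwa [hfa] at this
      have hfix : l * a + m = a := by
        rcases lt_trichotomy (l * a + m) a with h | h | h
        · exfalso
          set κ := a - (l * a + m) with hκ
          have hκ0 : 0 < κ := by linarith
          set y := a + min (κ / (2 * l)) (i₀ - a) with hy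
          have h1 : 0 < min (κ / (2 * l)) (i₀ - a) := lt_min (by positivity) (by linarith)
          have h2 : y ≤ i₀ := by linarith [min_le_right (κ / (2 * l)) (i₀ - a)]
          have h3 := hgt y (by linarith)
          rw [haff' y (by linarith) h2] at h3
          have h4 : l * min (κ / (2 * l)) (i₀ - a) ≤ κ / 2 := by
            calc l * min (κ / (2 * l)) (i₀ - a) ≤ l * (κ / (2 * l)) :=
                  mul_le_mul_of_nonneg_left (min_le_left _ _) hl.le
              _ = κ / 2 := by field_simp
          rw [hy, mul_add] at h3
          linarith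
        · exact h
        · exfalso
          set κ := (l * a + m) - a with hκ
          have hκ0 : 0 < κ := by linarith
          set y' := a + min (κ / 2) (i₀ - a) with hy'
          have h1 : 0 < min (κ / 2) (i₀ - a) := lt_min (by positivity) (by linarith)
          have h2 : y' ≤ i₀ := by linarith [min_le_right (κ / 2) (i₀ - a)]
          obtain ⟨x, hx1, hx2, hx3⟩ := hm2 y' (fun h => by
            have := (hEiff _).mp h; linarith)
          have hxa : a < x := by
            by_contra h; exact hx1 ((hEiff _).mpr (not_lt.mp h))
          rw [haff' x hxa (hx2.trans h2)] at hx3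
          have h5 : l * a < l * x := mul_lt_mul_of_pos_left hxa hl
          have h6 := min_le_left (κ / 2) (i₀ - a)
          linarith
      exact point a hai hfix (fun y hy => (hEiff y).mp hy)
        (fun y hy h => absurd ((hEiff y).mp h) (not_le.mpr hy)) hid hfa
    · have hg := hB'.grp hX
      set B := sc w O with hBdef
      have hi' : a ≤ i₀ ∧ i₀ - a ∉ B := by
        constructor
        · by_contra h; exact hi (Or.inl (not_le.mp h))
        · intro h; exact hi (Or.inr h)
      set z₀ := i₀ - a with hz₀
      have hz0 : 0 < z₀ := by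
        rcases hi'.1.lt_or_eq with h | h
        · linarith
        · exfalso; apply hi'.2; rw [hz₀, h, sub_self]; exact hg.zero
      have hnE : ∀ z, 0 < z → z ∉ B → a + z ∉ Up a B := by
        rintro z hz hzB (h | h)
        · linarith
        · apply hzB; rwa [add_sub_cancel_left] at h
      set κ := l * a + m - a with hκ
      have hfz : ∀ z, 0 < z → z ∉ B → z ≤ z₀ → f (a + z) = a + (l * z + κ) := by
        intro z hz hzB hzz
        rw [haff (a + z) (hnE z hz hzB) (by linarith)]
        rw [hκ]; ring
      have hpos : ∀ z, 0 < z → z ∉ B → z ≤ z₀ → 0 < l * z + κ ∧ l * z + κ ∉ B := by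
        intro z hz hzB hzz
        have h1 := hm1 _ (hnE z hz hzB)
        rw [hfz z hz hzB hzz] at h1
        have h2 : l * z + κ ∉ B := fun h => h1 (Or.inr (by rwa [add_sub_cancel_left]))
        have h3 : 0 ≤ l * z + κ := by
          by_contra h; exact h1 (Or.inl (by linarith))
        refine ⟨?_, h2⟩
        rcases h3.lt_or_eq with h | h
        · exact h
        · exfalso; apply h2; rw [← h]; exact hg.zero
      have hatt : ∀ z', 0 < z' → z' ∉ B → z' ≤ z₀ →
          ∃ z, 0 < z ∧ z ∉ B ∧ z ≤ z' ∧ l * z + κ = z' := by
        intro z' hz' hz'B hz'z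
        obtain ⟨x, hx1, hx2, hx3⟩ := hm2 (a + z') (hnE z' hz' hz'B)
        have hxa : a ≤ x := by
          by_contra h; exact hx1 (Or.inl (not_le.mp h))
        have hxB : x - a ∉ B := fun h => hx1 (Or.inr h)
        have hxa' : 0 < x - a := by
          rcases hxa.lt_or_eq with h | h
          · linarith
          · exfalso; apply hxB; rw [h, sub_self]; exact hg.zero
        refine ⟨x - a, hxa', hxB, by linarith, ?_⟩
        have := hfz (x - a) hxa' hxB (by linarith)
        rw [add_sub_cancel] at this
        linarith
      have hκB : κ ∈ B := by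
        by_contra hκB
        rcases lt_trichotomy κ 0 with h | h | h
        · have hκ' : -κ ∉ B := fun h' => hκB (by simpa using hg.neg h')
          set z' := min (-κ) z₀ with hz'
          have hz'0 : 0 < z' := lt_min (by linarith) hz0
          have hz'B : z' ∉ B := by
            rcases min_choice (-κ) z₀ with h' | h'
            · rw [hz', h']; exact hκ'
            · rw [hz', h']; exact hi'.2
          obtain ⟨z, hz1, hz2, hz3, hz4⟩ := hatt z' hz'0 hz'B (min_le_right _ _)
          have hz5 : z / 2 ∉ B := fun h' => hz2 (by
            have := hg.add _ h' _ h'; rwa [add_halves] at this)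
          have := (hpos (z / 2) (by linarith) hz5
            (by linarith [min_le_right (-κ) z₀])).1
          have h6 := min_le_left (-κ) z₀
          nlinarith
        · apply hκB; rw [h]; exact hg.zero
        · set z' := min κ z₀ with hz'
          have hz'0 : 0 < z' := lt_min h hz0
          have hz'B : z' ∉ B := by
            rcases min_choice κ z₀ with h' | h'
            · rw [hz', h']; exact hκB
            · rw [hz', h']; exact hi'.2
          obtain ⟨z, hz1, hz2, hz3, hz4⟩ := hatt z' hz'0 hz'B (min_le_right _ _)
          have h6 := min_le_left κ z₀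
          have h7 : 0 < l * z := mul_pos hl hz1
          linarith
      have hwB : w ∈ B := by
        show w / w ∈ O
        rw [div_self hw0.ne']; exact hX.one O hO
      have hlw : l * w ∈ B := by
        by_contra hlw
        have hlw0 : 0 < l * w := mul_pos hl hw0
        set z' := min (l * w) z₀ with hz'
        have hz'0 : 0 < z' := lt_min hlw0 hz0
        have hz'B : z' ∉ B := by
          rcases min_choice (l * w) z₀ with h' | h'
          · rw [hz', h']; exact hlw
          · rw [hz', h']; exact hi'.2
        obtain ⟨z, hz1, hz2, hz3, hz4⟩ := hatt z' hz'0 hz'B (min_le_right _ _)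
        have h6 := min_le_left (l * w) z₀
        -- `z - w > w`
        have h7 : z - w ∉ B := fun h' => hz2 (by
          have := hg.add _ h' _ hwB; rwa [sub_add_cancel] at this)
        have h8 : w < z - w := by
          by_contra h'
          have hzw : 0 < z - w := by
            by_contra h''
            exact hz2 (hg.between hwB hz1.le (by linarith))
          exact h7 (hg.between hwB hzw.le (not_lt.mp h'))
        have h9 : l * w < l * (z - w) := mul_lt_mul_of_pos_left h8 hl
        have h10 : l * (z - w) ≤ -κ := by rw [mul_sub]; linarith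
        exact hlw (hg.between (hg.neg hκB) hlw0.le (by linarith))
      have hlO : l ∈ O := by
        have : l * w / w ∈ O := hlw
        rwa [mul_div_cancel_right₀ _ hw0.ne'] at this
      obtain ⟨O', hO', hsub, hlO', s, hsO, hsO'⟩ := hX.sub O hO l hlO
      -- make `s` positive
      have hsO1 : |s| ∈ O := hX.conv O hO _ hsO _ (by rw [abs_abs])
      have hsO1' : |s| ∉ O' := fun h => hsO' (hX.conv O' hO' _ h _ (by rw [abs_abs]))
      have hs0 : 0 < |s| := by
        rcases (abs_nonneg s).eq_or_lt with h | h
        · exfalso; apply hsO1'; rw [← h]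
          exact hX.conv O' hO' 1 (hX.one O' hO') 0 (by simp)
        · exact h
      set u := z₀ / w with hu
      have huO : u ∉ O := hi'.2
      have hu0 : 0 < u := div_pos hz0 hw0
      set t := u / |s| with ht
      have ht0 : 0 < t := div_pos hu0 hs0
      have htO : t ∉ O := fun h => huO (by
        have := hX.mul O hO _ h _ hsO1
        rwa [ht, div_mul_cancel₀ _ hs0.ne'] at this)
      set w' := w * t with hw'
      have hw'0 : 0 < w' := mul_pos hw0 ht0
      have hzw' : z₀ / w' = |s| := by
        rw [hw', ← div_div, ← hu, ht]
        field_simp [hu0.ne', hs0.ne']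
      have hBsub : ∀ x ∈ B, x / w' ∈ O' := by
        intro x hx
        have hx' : x / w ∈ O := hx
        rw [hw', ← div_div]
        exact div_mem hX hO hO' hx' htO
      refine ⟨Up a (sc w' O'), ⟨a, _, isBall_sc hO' hw'0, Or.inl rfl⟩, ?_, ?_, ?_,
        a + w', a + w' / 2, ?_, ?_, ?_, ?_, ?_⟩
      · rintro y (hy | hy)
        · exact Or.inl hy
        · exact Or.inr (hBsub _ hy)
      · rintro (h | h)
        · linarith [hi'.1]
        · apply hsO1'
          have h' : z₀ / w' ∈ O' := h
          rwa [hzw'] at h'
      · intro y hy
        by_cases hyE : y ∈ Up a B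
        · rw [hid y hyE]; exact hy
        · have hya : a ≤ y := by
            by_contra h; exact hyE (Or.inl (not_le.mp h))
          have hyB : y - a ∉ B := fun h => hyE (Or.inr h)
          have hya' : 0 < y - a := by
            rcases hya.lt_or_eq with h | h
            · linarith
            · exfalso; apply hyB; rw [h, sub_self]; exact hg.zero
          have hyO : (y - a) / w' ∈ O' := by
            rcases hy with hy | hy
            · linarith
            · exact hy
          have hyz : y - a ≤ z₀ := by
            by_contra hc
            apply hsO1'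
            rw [← hzw']
            refine hX.conv O' hO' _ hyO _ ?_
            rw [abs_div z₀ w', abs_div (y - a) w']
            apply div_le_div_of_nonneg_right _ (abs_nonneg w')
            rw [abs_of_pos hz0, abs_of_pos hya']
            linarith
          have h1 := hfz (y - a) hya' hyB hyz
          rw [add_sub_cancel] at h1
          rw [h1]
          right
          show (a + (l * (y - a) + κ) - a) / w' ∈ O'
          rw [add_sub_cancel_left, add_div, mul_div_assoc]
          exact hX.add O' hO' _ (hX.mul O' hO' _ hlO' _ hyO) _ (hBsub _ hκB)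
      · intro h; linarith
      · right; show (a + w' - a) / w' ∈ O'
        rw [add_sub_cancel_left, div_self hw'0.ne']; exact hX.one O' hO'
      · right; show (a + w' / 2 - a) / w' ∈ O'
        have : (a + w' / 2 - a) / w' = 1 / 2 := by field_simp; ring
        rw [this]; exact half_mem hX hO' (hX.one O' hO')
      · apply hnE _ hw'0
        intro h
        have h' : w' / w ∈ O := h
        rw [hw', mul_div_cancel_left₀ _ hw0.ne'] at h'
        exact htO h'
      · apply hnE _ (by linarith)
        intro h
        have h' : w' / 2 / w ∈ O := h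
        have h2 : w' / 2 / w = t / 2 := by rw [hw']; field_simp
        rw [h2] at h'
        apply htO
        have := hX.add O hO _ h' _ h'
        rwa [add_halves] at this
  · -- E = Lo a B
    have hB' := hB
    rcases hB with rfl | ⟨O, hO, w, hw0, rfl⟩
    · have hEiff : ∀ y, y ∈ Lo a ({0} : Set K) ↔ y < a := by
        intro y
        simp only [Lo, Set.mem_ofPred_eq, Set.mem_singleton_iff, sub_eq_zero]
        exact ⟨fun h => h.1, fun h => ⟨h, h.ne⟩⟩
      have haE : a ∉ Lo a ({0} : Set K) := fun h => lt_irrefl _ ((hEiff a).mp h)
      have hfa : f a = a := by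
        obtain ⟨x, hx1, hx2, hx3⟩ := hm2 a haE
        have : x = a := le_antisymm hx2 (by
          by_contra h; exact hx1 ((hEiff x).mpr (not_le.mp h)))
        rw [this] at hx3; exact hx3
      have hai : a < i₀ := by
        have h1 : a ≤ i₀ := by
          by_contra h; exact hi ((hEiff _).mpr (not_le.mp h))
        rcases h1.lt_or_eq with h | h
        · exact h
        · exfalso; apply hi0; rw [← h]; exact hfa
      have hfix : l * a + m = a := by
        rw [← haff a haE hai.le]; exact hfa
      exact point a hai hfix (fun y hy => ((hEiff y).mp hy).le)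
        (fun y hy h => absurd ((hEiff y).mp h) (not_lt.mpr hy.le)) hid hfa
    · have hg := hB'.grp hX
      set B := sc w O with hBdef
      have hwB : w ∈ B := by
        show w / w ∈ O
        rw [div_self hw0.ne']; exact hX.one O hO
      have hnE : ∀ y, y ∉ Lo a B ↔ (a ≤ y ∨ y - a ∈ B) := by
        intro y
        simp only [Lo, Set.mem_ofPred_eq, not_and_or, not_lt, not_not]
      obtain ⟨b₀, hb0, hb0B, hb0i, hb0i'⟩ : ∃ b₀, 0 < b₀ ∧ b₀ ∈ B ∧ a - b₀ ≤ i₀ ∧
          (a ≤ i₀ ∨ i₀ - a = -b₀) := by
        rcases le_or_gt a i₀ with h | h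
        · exact ⟨w, hw0, hwB, by linarith, Or.inl h⟩
        · rcases (hnE i₀).mp hi with h' | h'
          · linarith
          · refine ⟨a - i₀, by linarith, ?_, by linarith, Or.inr (by ring)⟩
            have := hg.neg h'; rwa [neg_sub] at this
      set κ := l * a + m - a with hκ
      have hfb : ∀ b, b ∈ B → b₀ ≤ b → f (a - b) = a + (-(l * b) + κ) := by
        intro b hb hbb
        rw [haff (a - b) ((hnE _).mpr (Or.inr (by
          rw [sub_sub_cancel_left]; exact hg.neg hb))) (by linarith)]
        rw [hκ]; ring
      have hm1' : ∀ b, b ∈ B → b₀ ≤ b → (0 ≤ -(l * b) + κ ∨ -(l * b) + κ ∈ B) := by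
        intro b hb hbb
        have h1 := hm1 (a - b) ((hnE _).mpr (Or.inr (by
          rw [sub_sub_cancel_left]; exact hg.neg hb)))
        rw [hfb b hb hbb, hnE] at h1
        rcases h1 with h1 | h1
        · left; linarith
        · right; rwa [add_sub_cancel_left] at h1
      have hatt : ∀ b', b' ∈ B → b₀ ≤ b' → ∃ b ∈ B, b₀ ≤ b ∧ l * b = b' + κ := by
        intro b' hb' hbb'
        obtain ⟨x, hx1, hx2, hx3⟩ := hm2 (a - b') ((hnE _).mpr (Or.inr (by
          rw [sub_sub_cancel_left]; exact hg.neg hb')))
        have hxB : x - a ∈ B := by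
          rcases (hnE x).mp hx1 with h | h
          · linarith
          · exact h
        have hxB' : a - x ∈ B := by have := hg.neg hxB; rwa [neg_sub] at this
        refine ⟨a - x, hxB', by linarith, ?_⟩
        have := hfb (a - x) hxB' (by linarith)
        rw [sub_sub_cancel] at this
        linarith
      have hκB : κ ∈ B := by
        by_contra hκB
        rcases lt_trichotomy κ 0 with h | h | h
        · have h1 : 0 < l * b₀ := mul_pos hl hb0
          rcases hm1' b₀ hb0B le_rfl with h2 | h2
          · linarith
          · apply hκB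
            refine hg.conv _ h2 _ ?_
            rw [abs_of_neg h, abs_of_neg (by linarith)]; linarith
        · apply hκB; rw [h]; exact hg.zero
        · obtain ⟨b, hb, hbb, hlb⟩ := hatt b₀ hb0B le_rfl
          have h3 : b + b + b ∈ B := hg.add _ (hg.add _ hb _ hb) _ hb
          have h4 : -(l * (b + b + b)) + κ = -(3 * b₀ + 2 * κ) := by
            have : l * (b + b + b) = 3 * (l * b) := by ring
            rw [this, hlb]; ring
          rcases hm1' (b + b + b) h3 (by linarith) with h2 | h2
          · rw [h4] at h2; linarith
          · rw [h4] at h2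
            apply hκB
            refine hg.conv _ h2 _ ?_
            rw [abs_of_pos h, abs_neg, abs_of_pos (by linarith)]; linarith
      have hlwB : l * w ∈ B := by
        have hb : w + b₀ ∈ B := hg.add _ hwB _ hb0B
        have hlb : l * w ≤ l * (w + b₀) := mul_le_mul_of_nonneg_left (by linarith) hl.le
        have hlw0 : 0 ≤ l * w := (mul_pos hl hw0).le
        rcases hm1' (w + b₀) hb (by linarith) with h | h
        · exact hg.between hκB hlw0 (by linarith)
        · have h1 : l * (w + b₀) ∈ B := by
            have := hg.sub hκB h
            have e : κ - (-(l * (w + b₀)) + κ) = l * (w + b₀) := by ring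
            rwa [e] at this
          exact hg.between h1 hlw0 hlb
      have hlO : l ∈ O := by
        have : l * w / w ∈ O := hlwB
        rwa [mul_div_cancel_right₀ _ hw0.ne'] at this
      have hliO : l⁻¹ ∈ O := by
        obtain ⟨b₁, hb1, -, hlb1⟩ := hatt b₀ hb0B le_rfl
        obtain ⟨b₂, hb2, -, hlb2⟩ := hatt (b₀ + w) (hg.add _ hb0B _ hwB) (by linarith)
        have h1 : w / l = b₂ - b₁ := by
          have : l * (b₂ - b₁) = w := by rw [mul_sub, hlb1, hlb2]; ring
          rw [← this]; field_simp
        have h2 : w / l ∈ B := by rw [h1]; exact hg.sub hb2 hb1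
        have h3 : w / l / w ∈ O := h2
        have h4 : w / l / w = l⁻¹ := by field_simp
        rwa [h4] at h3
      have habs : ∀ x ∈ O, |x| ∈ O := fun x hx => hX.conv O hO _ hx _ (by rw [abs_abs])
      obtain ⟨O', hO', hsub, hcO', s, hsO, hsO'⟩ := hX.sub O hO
        (|l| + |l⁻¹| + |κ / w| + |b₀ / w|)
        (hX.add O hO _ (hX.add O hO _ (hX.add O hO _ (habs _ hlO) _ (habs _ hliO)) _
          (habs _ hκB)) _ (habs _ hb0B))
      have hnn1 := abs_nonneg l
      have hnn2 := abs_nonneg (l⁻¹)
      have hnn3 := abs_nonneg (κ / w)
      have hnn4 := abs_nonneg (b₀ / w)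
      have habs4 : |(|l| + |l⁻¹| + |κ / w| + |b₀ / w|)| = |l| + |l⁻¹| + |κ / w| + |b₀ / w| :=
        abs_of_nonneg (by linarith)
      have hlO' : l ∈ O' := hX.conv O' hO' _ hcO' _ (by rw [habs4]; linarith)
      have hliO' : l⁻¹ ∈ O' := hX.conv O' hO' _ hcO' _ (by rw [habs4]; linarith)
      have hκO' : κ / w ∈ O' := hX.conv O' hO' _ hcO' _ (by rw [habs4]; linarith)
      have hbO' : b₀ / w ∈ O' := hX.conv O' hO' _ hcO' _ (by rw [habs4]; linarith)
      have hB2 : IsBall X (sc w O') := isBall_sc hO' hw0
      have hg' := hB2.grp hX
      have hsO1 : |s| ∈ O := hX.conv O hO _ hsO _ (by rw [abs_abs])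
      have hsO1' : |s| ∉ O' := fun h => hsO' (hX.conv O' hO' _ h _ (by rw [abs_abs]))
      have hs0 : 0 < |s| := by
        rcases (abs_nonneg s).eq_or_lt with h | h
        · exfalso; apply hsO1'; rw [← h]
          exact hX.conv O' hO' 1 (hX.one O' hO') 0 (by simp)
        · exact h
      have hpts : ∀ r : K, 1 ≤ r → r ∈ O → a - w * (r * |s|) ∈ Lo a (sc w O') ∧
          a - w * (r * |s|) ∉ Lo a B := by
        intro r hr hrO
        have hr0 : 0 < r := by linarith
        have hpos : 0 < w * (r * |s|) := by positivity
        constructor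
        · refine ⟨by linarith, fun h => ?_⟩
          have h' : (a - w * (r * |s|) - a) / w ∈ O' := h
          have e : (a - w * (r * |s|) - a) / w = -(r * |s|) := by field_simp; ring
          rw [e] at h'
          apply hsO1'
          refine hX.conv O' hO' _ h' _ ?_
          rw [abs_abs, abs_neg, abs_mul, abs_abs, abs_of_pos hr0]
          nlinarith [abs_nonneg s]
        · rw [hnE]
          right
          show (a - w * (r * |s|) - a) / w ∈ O
          have e : (a - w * (r * |s|) - a) / w = -(r * |s|) := by field_simp; ring
          rw [e]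
          have h1 := hX.mul O hO _ hrO _ hsO1
          exact hX.conv O hO _ h1 _ (by rw [abs_neg])
      refine ⟨Lo a (sc w O'), ⟨a, _, hB2, Or.inr rfl⟩, ?_, ?_, ?_,
        a - w * (1 * |s|), a - w * (2 * |s|), ?_, ?_, ?_, ?_, ?_⟩
      · rintro y ⟨hy1, hy2⟩
        exact ⟨hy1, fun h => hy2 (hsub h)⟩
      · rintro ⟨h1, h2⟩
        rcases hb0i' with h | h
        · linarith
        · apply h2
          rw [h]; exact hg'.neg hbO'
      · intro y hy
        by_cases hyE : y ∈ Lo a B
        · rw [hid y hyE]; exact hy
        · obtain ⟨hya, hyB'⟩ := hy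
          have hyB : y - a ∈ B := by
            rcases (hnE y).mp hyE with h | h
            · linarith
            · exact h
          set b := a - y with hb
          have hb' : b ∈ B := by have := hg.neg hyB; rwa [neg_sub] at this
          have hbB' : b ∉ sc w O' := fun h => hyB' (by
            have := hg'.neg h; rwa [hb, neg_sub] at this)
          have hb0' : 0 < b := by linarith
          have hbb : b₀ < b := by
            by_contra h
            exact hbB' (hg'.between hbO' hb0'.le (not_lt.mp h))
          have h1 := hfb b hb' hbb.le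
          have h2 : a - b = y := by rw [hb]; ring
          rw [h2] at h1
          rw [h1]
          have hlb : l * b ∉ sc w O' := by
            intro h
            apply hbB'
            have h3 : l * b / w ∈ O' := h
            have h4 := hX.mul O' hO' _ hliO' _ h3
            have e : l⁻¹ * (l * b / w) = b / w := by field_simp
            rw [e] at h4
            exact h4
          have hlb0 : 0 < l * b := mul_pos hl hb0'
          have hκlt : κ < l * b := by
            by_contra h
            exact hlb (hg'.between hκO' hlb0.le (not_lt.mp h))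
          refine ⟨by linarith, fun h => hlb ?_⟩
          rw [add_sub_cancel_left] at h
          have := hg'.sub hκO' h
          have e : κ - (-(l * b) + κ) = l * b := by ring
          rwa [e] at this
      · intro h
        have : w * (1 * |s|) = w * (2 * |s|) := by linarith
        have h2 := mul_left_cancel₀ hw0.ne' this
        linarith
      · exact (hpts 1 le_rfl (hX.one O hO)).1
      · refine (hpts 2 (by norm_num) ?_).1
        have := hX.add O hO _ (hX.one O hO) _ (hX.one O hO)
        rwa [one_add_one_eq_two] at this
      · exact (hpts 1 le_rfl (hX.one O hO)).2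
      · refine (hpts 2 (by norm_num) ?_).2
        have := hX.add O hO _ (hX.one O hO) _ (hX.one O hO)
        rwa [one_add_one_eq_two] at this

end Pool.Agent.U388.LP
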