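import Mathlib
import Pool.Agent.U388.LP.Split

set_option autoImplicit false
set_option linter.unusedSectionVars false

namespace Pool.Agent.U388.LP

variable {K : Type*} [Field K] [LinearOrder K] [IsStrictOrderedRing K]

/-- every strictly positive element of `L X` is the join of two disjoint strictly positive ones -/
theorem no_prime {X : Set (Set K)} (hX : Scales X) {f : K ≃o K} (hf : f ∈ L X) (hf1 : f ≠ 1)
    (hpos : ∀ t, t ≤ f t) :
    ∃ f₁ ∈ L X, ∃ f₂ ∈ L X, f₁ ≠ 1 ∧ f₂ ≠ 1 ∧ (∀ t, min (f₁ t) (f₂ t) = t) ∧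
      ∀ t, max (f₁ t) (f₂ t) = f t := by
  classical
  obtain ⟨hPA, t₁, t₂, hbd⟩ := hf
  obtain ⟨F, hF, hFa, C, hC, hCp, hFC⟩ := id hPA
  -- the first class on which `f` moves something
  have hmov : ∃ x, f x ≠ x := by
    by_contra h
    push Not at h
    exact hf1 (by ext x; exact h x)
  let N : K → ℕ := fun x => {D ∈ F | x ∈ D}.ncard
  have hNle : ∀ x, N x ≤ F.ncard := fun x => Set.ncard_le_ncard (fun D h => h.1) hF
  obtain ⟨i₀, hi0, hmax⟩ : ∃ i₀, f i₀ ≠ i₀ ∧ ∀ x, f x ≠ x → N x ≤ N i₀ := by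
    let S : Set ℕ := {n | ∃ x, f x ≠ x ∧ N x = n}
    have hS : S.Nonempty := by
      obtain ⟨x, hx⟩ := hmov
      exact ⟨N x, x, hx, rfl⟩
    have hSb : BddAbove S := ⟨F.ncard, by rintro n ⟨x, _, rfl⟩; exact hNle x⟩
    obtain ⟨x, hx, hxs⟩ := Nat.sSup_mem hS hSb
    exact ⟨x, hx, fun y hy => by rw [hxs]; exact le_csSup hSb ⟨y, hy, rfl⟩⟩
  obtain ⟨p, hp, hpx⟩ := hFC i₀
  have hp0 := hCp p hp
  let G : Set (Set K) := {D ∈ F | i₀ ∉ D}
  have hG : G.Finite := hF.subset (fun D h => h.1)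
  -- `f` is the identity on all members of `G`
  have hGid : ∀ D ∈ G, ∀ y ∈ D, f y = y := by
    rintro D ⟨hD, hiD⟩ y hy
    by_contra hne
    have hyi : y ≤ i₀ := by
      by_contra h
      exact hiD ((hFa D hD).lower hX (not_le.mp h).le hy)
    have hlt : N i₀ < N y := by
      apply Set.ncard_lt_ncard _ (hF.subset (fun D h => h.1))
      refine ⟨fun D' hD' => ⟨hD'.1, (hFa D' hD'.1).lower hX hyi hD'.2⟩, fun h => hiD ?_⟩
      exact (h ⟨hD, hy⟩ : D ∈ {D ∈ F | i₀ ∈ D}).2
    exact absurd (hmax y hne) (not_le.mpr hlt)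
  -- affine below `i₀` outside the members of `G`
  have hregion : ∀ y, (∀ D ∈ G, y ∉ D) → y ≤ i₀ → f y = p.1 * y + p.2 := by
    intro y hy hyi
    refine hpx y (fun D hD => ?_)
    constructor
    · intro h; exact (hFa D hD).lower hX hyi h
    · intro h
      by_contra h'
      exact hy D ⟨hD, h'⟩ h
  -- `G` is nonempty
  have hGne : G.Nonempty := by
    by_contra hGe
    rw [Set.not_nonempty_iff_eq_empty] at hGe
    have hall : ∀ y, y ≤ i₀ → f y = p.1 * y + p.2 := fun y hy =>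
      hregion y (fun D hD => by rw [hGe] at hD; exact absurd hD (Set.notMem_empty _)) hy
    set u := min i₀ t₁ - 1 with hu
    have hu1 : u < i₀ := by linarith [min_le_left i₀ t₁]
    have hu2 : u < t₁ := by linarith [min_le_right i₀ t₁]
    have e1 := hall u hu1.le
    have e2 := hall (u - 1) (by linarith)
    rw [(hbd u).1 hu2] at e1
    rw [(hbd (u - 1)).1 (by linarith)] at e2
    have h1 : p.1 = 1 := by
      have : p.1 * u - p.1 * (u - 1) = 1 := by linarith
      rw [← mul_sub] at this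
      simpa using this
    have h2 : p.2 = 0 := by rw [h1] at e1; linarith
    apply hi0
    rw [hall i₀ le_rfl, h1, h2]; ring
  -- the largest member `E` of `G`
  obtain ⟨E, hEG, hEmax⟩ := hG.exists_maximal hGne
  have hEtop : ∀ D ∈ G, D ⊆ E := by
    intro D hD
    have htot : D ⊆ E ∨ E ⊆ D := by
      by_contra h
      push Not at h
      obtain ⟨h1, h2⟩ := h
      obtain ⟨x, hx, hx'⟩ := Set.not_subset.mp h1
      obtain ⟨y, hy, hy'⟩ := Set.not_subset.mp h2
      rcases le_total x y with h | h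
      · exact hx' ((hFa E hEG.1).lower hX h hy)
      · exact hy' ((hFa D hD.1).lower hX h hx)
    rcases htot with h | h
    · exact h
    · exact hEmax hD h
  have haff : ∀ y, y ∉ E → y ≤ i₀ → f y = p.1 * y + p.2 := fun y hy hyi =>
    hregion y (fun D hD h => hy (hEtop D hD h)) hyi
  obtain ⟨D, hDa, hED, hiD, hfD, y₁, y₂, hy12, hy1, hy2, hy1E, hy2E⟩ :=
    split hX f hpos (hFa E hEG.1) (hGid E hEG) hp0 hEG.2 hi0 haff
  have hDlow : ∀ x y, x ≤ y → y ∈ D → x ∈ D := fun x y h hy => hDa.lower hX h hy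
  have hDinv : ∀ x, x ∈ D ↔ f x ∈ D := fun x => ⟨hfD x, fun h => hDlow x (f x) (hpos x) h⟩
  have hle : ∀ y ∈ D, y ≤ i₀ := by
    intro y hy
    by_contra h
    exact hiD (hDlow i₀ y (not_le.mp h).le hy)
  -- `f` moves a point of `D`
  obtain ⟨y₀, hy0, hy0'⟩ : ∃ y ∈ D, f y ≠ y := by
    by_contra h
    push Not at h
    have e1 := haff y₁ hy1E (hle _ hy1)
    have e2 := haff y₂ hy2E (hle _ hy2)
    rw [h _ hy1] at e1
    rw [h _ hy2] at e2
    have h1 : p.1 = 1 := by
      have h3 : (p.1 - 1) * (y₁ - y₂) = 0 := by linarith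
      rcases mul_eq_zero.mp h3 with h3 | h3
      · linarith
      · exact absurd (sub_eq_zero.mp h3) hy12
    have h2 : p.2 = 0 := by rw [h1] at e1; linarith
    apply hi0
    rw [haff i₀ hEG.2 le_rfl, h1, h2]; ring
  have h1inv : ∀ x, x ∈ D ↔ (1 : K ≃o K) x ∈ D := fun x => Iff.rfl
  refine ⟨glue D hDlow f 1 hDinv h1inv, ⟨PA.glue hDa hPA (PA.id X), t₁, t₂, fun s => ?_⟩,
    glue D hDlow 1 f h1inv hDinv, ⟨PA.glue hDa (PA.id X) hPA, t₁, t₂, fun s => ?_⟩,
    ?_, ?_, ?_, ?_⟩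
  · by_cases hs : s ∈ D
    · rw [glue_of_mem hs]; exact hbd s
    · rw [glue_of_not_mem hs]; exact ⟨fun _ => rfl, fun _ => rfl⟩
  · by_cases hs : s ∈ D
    · rw [glue_of_mem hs]; exact ⟨fun _ => rfl, fun _ => rfl⟩
    · rw [glue_of_not_mem hs]; exact hbd s
  · intro h
    apply hy0'
    have := DFunLike.congr_fun h y₀
    rwa [glue_of_mem hy0] at this
  · intro h
    apply hi0
    have := DFunLike.congr_fun h i₀
    rwa [glue_of_not_mem hiD] at this
  · intro t
    by_cases ht : t ∈ D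
    · rw [glue_of_mem ht, glue_of_mem ht]; exact min_eq_right (hpos t)
    · rw [glue_of_not_mem ht, glue_of_not_mem ht]; exact min_eq_left (hpos t)
  · intro t
    by_cases ht : t ∈ D
    · rw [glue_of_mem ht, glue_of_mem ht]; exact max_eq_left (hpos t)
    · rw [glue_of_not_mem ht, glue_of_not_mem ht]; exact max_eq_right (hpos t)

end Pool.Agent.U388.LP
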